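import Mathlib
import Pool.Agent.Y784.SW.Final

/-!
# Swan exponents of symmetric and exterior squares: perfect residue fields of characteristic two

Let `F` be a complete discretely valued field with valuation ring `A` and perfect residue field `k`
of characteristic two, such that `x ^ 2 + x` is not surjective on `k` (that is, `k` has a separable
quadratic extension).  For every finite Galois extension `E / F` and every finite-dimensional
complex representation `ρ` of `Gal(E / F)`, `Sw(Sym² ρ) - Sw(∧² ρ) ≤ Sw(ρ)`.

Every non-Archimedean local field of residue characteristic two satisfies the hypotheses; see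
`localField`.
-/

open scoped TensorProduct ValuativeRel
open Representation IsLocalRing

noncomputable section

namespace Pool.Agent.Results.MP_410e67_nt.SwanSquarePerfect

open Pool.Agent.Y784.SW
open Pool.Agent.W90.Swan (symSqRep altSqRep)

section defs

variable {F : Type*} [Field F] (A : Subring F) (E : Type*) [Field E] [Algebra F E]

/-- the valuation ring of `E`: the integral closure of the valuation ring `A` of `F` in `E` -/
def OE : Subring E := (integralClosure A E).toSubring

variable [IsFractionRing A F] [IsDiscreteValuationRing A] [IsAdicComplete (maximalIdeal A) A]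
  [FiniteDimensional F E] [IsGalois F E]

instance isLocalRing_OE : IsLocalRing (OE A E) := OO_local A F E

/-- `σ x - x ∈ 𝔪_E ^ (i + 1)` for all `x ∈ 𝒪_E` -/
def IsRam (i : ℕ) (σ : E ≃ₐ[F] E) : Prop :=
  ∀ x : OE A E, ∃ y ∈ maximalIdeal (OE A E) ^ (i + 1), (y : E) = σ x - x

theorem exists_ram (i : ℕ) : ∃ S : Subgroup (E ≃ₐ[F] E), ∀ σ, σ ∈ S ↔ IsRam A E i σ :=
  haveI : IsLocalRing (OO A E) := OO_local A F E
  exists_ramSubgroup A F E i

theorem IsRam.one (i : ℕ) : IsRam A E i 1 := by
  obtain ⟨S, hS⟩ := exists_ram A E i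
  exact (hS _).mp S.one_mem

variable {A E} in
theorem IsRam.mul {i : ℕ} {a b : E ≃ₐ[F] E} (ha : IsRam A E i a) (hb : IsRam A E i b) :
    IsRam A E i (a * b) := by
  obtain ⟨S, hS⟩ := exists_ram A E i
  exact (hS _).mp (S.mul_mem ((hS _).mpr ha) ((hS _).mpr hb))

variable {A E} in
theorem IsRam.inv {i : ℕ} {a : E ≃ₐ[F] E} (ha : IsRam A E i a) : IsRam A E i a⁻¹ := by
  obtain ⟨S, hS⟩ := exists_ram A E i
  exact (hS _).mp (S.inv_mem ((hS _).mpr ha))

/-- the lower-numbering ramification group
`G_i = {σ | σ x - x ∈ 𝔪_E ^ (i + 1) for all x ∈ 𝒪_E}` of `Gal(E / F)` -/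
def ramGroup (i : ℕ) : Subgroup (E ≃ₐ[F] E) where
  carrier := {σ | IsRam A E i σ}
  mul_mem' := IsRam.mul
  one_mem' := IsRam.one A E i
  inv_mem' := IsRam.inv

/-- the ramification groups are eventually trivial, so the sum defining the Swan exponent is
finite -/
theorem ramGroup_eventually_bot : ∃ M, ∀ i, M ≤ i → ramGroup A E i = ⊥ :=
  haveI : IsLocalRing (OO A E) := OO_local A F E
  ram_eventually_bot A F E (ramGroup A E) fun _ _ => Iff.rfl

/-- the Swan exponent `Sw(ρ) = ∑_{i ≥ 1} (g_i / g_0) dim (V / V^{G_i})`, with `g_i = |G_i|` -/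
def Sw {V : Type*} [AddCommGroup V] [Module ℂ V] (ρ : Representation ℂ (E ≃ₐ[F] E) V) : ℚ :=
  ∑ᶠ i ∈ Set.Ici 1, ((Nat.card (ramGroup A E i) : ℚ) / Nat.card (ramGroup A E 0)) *
    Module.finrank ℂ (V ⧸ invariants (ρ.comp (ramGroup A E i).subtype))

end defs

section localfields

variable (F : Type*) [Field F] [ValuativeRel F] [TopologicalSpace F] [IsNonarchimedeanLocalField F]

instance isFractionRing_integer : IsFractionRing 𝒪[F] F :=
  (Valuation.integer.integers (ValuativeRel.valuation F)).isFractionRing

instance isAdicComplete_integer : IsAdicComplete (maximalIdeal 𝒪[F]) 𝒪[F] := by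
  let := IsTopologicalAddGroup.rightUniformSpace F
  have := isUniformAddGroup_of_addCommGroup (G := F)
  infer_instance

end localfields

/-- **Swan exponents of `Sym²` and `∧²` over a complete discretely valued field with perfect
residue field of characteristic two on which `x ^ 2 + x` is not surjective.** -/
theorem result (F : Type*) [Field F] (A : Subring F) [IsFractionRing A F]
    [IsDiscreteValuationRing A] [IsAdicComplete (maximalIdeal A) A]
    [CharP (ResidueField A) 2] [PerfectField (ResidueField A)]
    (has : ∃ a : ResidueField A, ∀ x : ResidueField A, x ^ 2 + x ≠ a)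
    (E : Type*) [Field E] [Algebra F E] [FiniteDimensional F E] [IsGalois F E]
    (V : Type*) [AddCommGroup V] [Module ℂ V] [FiniteDimensional ℂ V]
    (ρ : Representation ℂ (E ≃ₐ[F] E) V) :
    Sw A E (symSqRep ρ) - Sw A E (altSqRep ρ) ≤ Sw A E ρ := by
  have : IsLocalRing (OO A E) := OO_local A F E
  exact swan_perfect A F E has (ramGroup A E) (fun _ _ => Iff.rfl) ρ

/-- the case of non-Archimedean local fields (finite residue field of characteristic two) -/
theorem localField (F : Type*) [Field F] [ValuativeRel F] [TopologicalSpace F]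
    [IsNonarchimedeanLocalField F] [CharP 𝓀[F] 2]
    (E : Type*) [Field E] [Algebra F E] [FiniteDimensional F E] [IsGalois F E]
    (V : Type*) [AddCommGroup V] [Module ℂ V] [FiniteDimensional ℂ V]
    (ρ : Representation ℂ (E ≃ₐ[F] E) V) :
    Sw 𝒪[F] E (symSqRep ρ) - Sw 𝒪[F] E (altSqRep ρ) ≤ Sw 𝒪[F] E ρ :=
  result F 𝒪[F] (Pool.Agent.W90.Swan.k_as1 (by exact_mod_cast CharP.cast_eq_zero 𝓀[F] 2)) E V ρ

end Pool.Agent.Results.MP_410e67_nt.SwanSquarePerfect
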